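import Mathlib

/-!
Words in letters `x i` with coefficients in a subspace `K` of an algebra `H` (`1 ∈ K`, `K K ⊆ K`):
irreducible words for shortlex, modulo the smaller words times `K`.
-/

set_option autoImplicit false

universe u v

namespace Pool.Agent.WK

section alg
variable (k : Type u) [Field k] {H : Type v} [Ring H] [Algebra k H]

/-- the product of the letters of a word -/
def wdK {m : ℕ} (x : Fin m → H) (w : List (Fin m)) : H := (w.map x).prod

/-- the words smaller than `w` (shortlex) times `K` -/
def NwK (K : Submodule k H) {m : ℕ} (x : Fin m → H) (w : List (Fin m)) : Submodule k H :=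
  Submodule.span k (wdK x '' {v | List.Shortlex (· < ·) v w}) * K

/-- irreducible words -/
def IrrK (K : Submodule k H) {m : ℕ} (x : Fin m → H) : Set (List (Fin m)) :=
  {w | wdK x w ∉ NwK k K x w}

private theorem wk_ml {A B D : Submodule k H} (h : A ≤ B) : A * D ≤ B * D :=
  mul_le_mul' h le_rfl

private theorem wk_mr {A B D : Submodule k H} (h : A ≤ B) : D * A ≤ D * B :=
  mul_le_mul' le_rfl h

theorem wk_append {m : ℕ} (x : Fin m → H) (u v : List (Fin m)) :
    wdK x (u ++ v) = wdK x u * wdK x v := by
  simp [wdK]

theorem wk_lex {α : Type} {r : α → α → Prop} {s t : List α}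
    (hl : s.length = t.length) (h : List.Lex r s t) (a b : List α) :
    List.Lex r (s ++ a) (t ++ b) := by
  induction h with
  | nil => simp at hl
  | cons _ ih => exact List.Lex.cons (ih (by simpa using hl))
  | rel h => exact List.Lex.rel h

private theorem wk_lex_trans {α : Type} {r : α → α → Prop}
    (hr : ∀ a b c : α, r a b → r b c → r a c) :
    ∀ {s t u : List α}, List.Lex r s t → List.Lex r t u → List.Lex r s u
  | [], _, _ :: _, _, _ => List.Lex.nil
  | _ :: _, _ :: _, _ :: _, List.Lex.cons h, List.Lex.cons h' =>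
    List.Lex.cons (wk_lex_trans hr h h')
  | _ :: _, _ :: _, _ :: _, List.Lex.cons _, List.Lex.rel h' => List.Lex.rel h'
  | _ :: _, _ :: _, _ :: _, List.Lex.rel h, List.Lex.cons _ => List.Lex.rel h
  | _ :: _, _ :: _, _ :: _, List.Lex.rel h, List.Lex.rel h' => List.Lex.rel (hr _ _ _ h h')

theorem wk_trans {m : ℕ} {s t u : List (Fin m)} (h : List.Shortlex (· < ·) s t)
    (h' : List.Shortlex (· < ·) t u) : List.Shortlex (· < ·) s u := by
  rcases List.shortlex_def.1 h with h1 | ⟨h1, h2⟩ <;>
  rcases List.shortlex_def.1 h' with h3 | ⟨h3, h4⟩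
  · exact List.Shortlex.of_length_lt (h1.trans h3)
  · exact List.Shortlex.of_length_lt (h3 ▸ h1)
  · exact List.Shortlex.of_length_lt (h1 ▸ h3)
  · exact List.Shortlex.of_lex (h1.trans h3)
      (wk_lex_trans (r := ((· < ·) : Fin m → Fin m → Prop)) (fun _ _ _ h h' => lt_trans h h')
        h2 h4)

/-- every word is a combination of irreducible words, not larger -/
theorem wk_mem {K : Submodule k H} (h1 : (1 : H) ∈ K) (hKK : K * K ≤ K) {m : ℕ} (x : Fin m → H)
    (w : List (Fin m)) : wdK x w ∈ Submodule.span k (wdK x '' {v | v ∈ IrrK k K x ∧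
      (List.Shortlex (· < ·) v w ∨ v = w)}) * K := by
  induction w using (List.Shortlex.wf (wellFounded_lt (α := Fin m))).induction with
  | _ w ih =>
    by_cases hw : w ∈ IrrK k K x
    · have h3 : wdK x w ∈ Submodule.span k (wdK x '' {v | v ∈ IrrK k K x ∧
          (List.Shortlex (· < ·) v w ∨ v = w)}) := Submodule.subset_span ⟨w, ⟨hw, Or.inr rfl⟩, rfl⟩
      have h2 := Submodule.mul_mem_mul h3 h1
      rwa [mul_one] at h2
    · have h4 : wdK x w ∈ NwK k K x w := by
        by_contra h
        exact hw h
      have h2 : NwK k K x w ≤ Submodule.span k (wdK x '' {v | v ∈ IrrK k K x ∧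
          (List.Shortlex (· < ·) v w ∨ v = w)}) * K := by
        have h3 : Submodule.span k (wdK x '' {v | List.Shortlex (· < ·) v w}) ≤
            Submodule.span k (wdK x '' {v | v ∈ IrrK k K x ∧
            (List.Shortlex (· < ·) v w ∨ v = w)}) * K := by
          rw [Submodule.span_le]
          rintro _ ⟨v, hv, rfl⟩
          refine wk_ml k ?_ (ih v hv)
          refine Submodule.span_mono (Set.image_mono ?_)
          rintro u ⟨hu1, hu2⟩
          refine ⟨hu1, Or.inl ?_⟩
          rcases hu2 with hu2 | rfl
          · exact wk_trans hu2 hv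
          · exact hv
        calc NwK k K x w ≤ (Submodule.span k (wdK x '' {v | v ∈ IrrK k K x ∧
            (List.Shortlex (· < ·) v w ∨ v = w)}) * K) * K := wk_ml k h3
          _ = Submodule.span k (wdK x '' {v | v ∈ IrrK k K x ∧
            (List.Shortlex (· < ·) v w ∨ v = w)}) * (K * K) := mul_assoc _ _ _
          _ ≤ _ := wk_mr k hKK
      exact h2 h4

/-- smaller words may be taken irreducible -/
theorem wk_irr {K : Submodule k H} (h1 : (1 : H) ∈ K) (hKK : K * K ≤ K) {m : ℕ} (x : Fin m → H)
    (w : List (Fin m)) :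
    NwK k K x w = Submodule.span k (wdK x '' {v | v ∈ IrrK k K x ∧
      List.Shortlex (· < ·) v w}) * K := by
  apply le_antisymm
  · have h3 : Submodule.span k (wdK x '' {v | List.Shortlex (· < ·) v w}) ≤
        Submodule.span k (wdK x '' {v | v ∈ IrrK k K x ∧ List.Shortlex (· < ·) v w}) * K := by
      rw [Submodule.span_le]
      rintro _ ⟨v, hv, rfl⟩
      refine wk_ml k ?_ (wk_mem k h1 hKK x v)
      refine Submodule.span_mono (Set.image_mono ?_)
      rintro u ⟨hu1, hu2⟩
      refine ⟨hu1, ?_⟩
      rcases hu2 with hu2 | rfl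
      · exact wk_trans hu2 hv
      · exact hv
    calc NwK k K x w ≤ (Submodule.span k (wdK x '' {v | v ∈ IrrK k K x ∧
        List.Shortlex (· < ·) v w}) * K) * K := wk_ml k h3
      _ = Submodule.span k (wdK x '' {v | v ∈ IrrK k K x ∧ List.Shortlex (· < ·) v w}) *
          (K * K) := mul_assoc _ _ _
      _ ≤ _ := wk_mr k hKK
  · exact wk_ml k (Submodule.span_mono (Set.image_mono fun v hv => hv.2))

/-- the words of length at most `n` times `K` -/
def WlK (K : Submodule k H) {m : ℕ} (x : Fin m → H) (n : ℕ) : Submodule k H :=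
  Submodule.span k (wdK x '' {v | v.length ≤ n}) * K

theorem wk_W_mono (K : Submodule k H) {m : ℕ} (x : Fin m → H) {a b : ℕ}
    (h : a ≤ b) : WlK k K x a ≤ WlK k K x b :=
  wk_ml k (Submodule.span_mono (Set.image_mono fun _ hv => le_trans hv h))

theorem wk_K_le_W (K : Submodule k H) {m : ℕ} (x : Fin m → H) (n : ℕ) : K ≤ WlK k K x n := by
  intro y hy
  have h1 : (1 : H) ∈ Submodule.span k (wdK x '' {v | v.length ≤ n}) :=
    Submodule.subset_span ⟨[], by simp, by simp [wdK]⟩
  have h2 := Submodule.mul_mem_mul h1 hy
  rwa [one_mul] at h2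

/-- `K x_v ⊆ W_{|v|}` -/
theorem wk_K_wd {K : Submodule k H} {m : ℕ} {x : Fin m → H}
    (hstb : K * Submodule.span k (Set.range x) ≤ K ⊔ Submodule.span k (Set.range x) * K)
    (v : List (Fin m)) : K * Submodule.span k {wdK x v} ≤ WlK k K x v.length := by
  induction v with
  | nil =>
    have h1 : Submodule.span k {wdK x ([] : List (Fin m))} = (1 : Submodule k H) := by
      simp [wdK, Submodule.one_eq_span]
    rw [h1, mul_one]
    exact wk_K_le_W k K x _
  | cons j v ih =>
    have h1 : Submodule.span k {wdK x (j :: v)} ≤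
        Submodule.span k (Set.range x) * Submodule.span k {wdK x v} := by
      rw [Submodule.span_le, Set.singleton_subset_iff]
      have : wdK x (j :: v) = x j * wdK x v := by simp [wdK]
      rw [this]
      exact Submodule.mul_mem_mul (Submodule.subset_span ⟨j, rfl⟩)
        (Submodule.subset_span rfl)
    have h2 : Submodule.span k (Set.range x) * WlK k K x v.length ≤
        WlK k K x (v.length + 1) := by
      rw [WlK, WlK, ← mul_assoc]
      refine wk_ml k ?_
      rw [Submodule.span_mul_span, Submodule.span_le]
      rintro _ ⟨_, ⟨i, rfl⟩, _, ⟨u, hu, rfl⟩, rfl⟩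
      refine Submodule.subset_span ⟨i :: u, ?_, by simp [wdK]⟩
      have : u.length ≤ v.length := hu
      simpa using this
    calc K * Submodule.span k {wdK x (j :: v)}
        ≤ K * (Submodule.span k (Set.range x) * Submodule.span k {wdK x v}) := wk_mr k h1
      _ = (K * Submodule.span k (Set.range x)) * Submodule.span k {wdK x v} :=
          (mul_assoc _ _ _).symm
      _ ≤ (K ⊔ Submodule.span k (Set.range x) * K) * Submodule.span k {wdK x v} :=
          wk_ml k hstb
      _ = K * Submodule.span k {wdK x v} ⊔
          Submodule.span k (Set.range x) * (K * Submodule.span k {wdK x v}) := by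
          rw [Submodule.sup_mul, mul_assoc]
      _ ≤ WlK k K x v.length ⊔ Submodule.span k (Set.range x) * WlK k K x v.length :=
          sup_le_sup ih (wk_mr k ih)
      _ ≤ _ := by
          rw [List.length_cons]
          exact sup_le (wk_W_mono k K x (Nat.le_succ _)) h2

theorem wk_K_span {K : Submodule k H} {m : ℕ} {x : Fin m → H}
    (hstb : K * Submodule.span k (Set.range x) ≤ K ⊔ Submodule.span k (Set.range x) * K)
    (n : ℕ) : K * Submodule.span k (wdK x '' {v | v.length ≤ n}) ≤ WlK k K x n := by
  rw [Submodule.mul_le]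
  intro a ha b hb
  have h1 : Submodule.span k (wdK x '' {v | v.length ≤ n}) ≤
      (WlK k K x n).comap (LinearMap.mulLeft k a) := by
    rw [Submodule.span_le]
    rintro _ ⟨v, hv, rfl⟩
    rw [SetLike.mem_coe, Submodule.mem_comap, LinearMap.mulLeft_apply]
    exact wk_W_mono k K x hv (wk_K_wd k hstb v
      (Submodule.mul_mem_mul ha (Submodule.subset_span rfl)))
  exact h1 hb

theorem wk_W_mul {K : Submodule k H} (hKK : K * K ≤ K) {m : ℕ} {x : Fin m → H}
    (hstb : K * Submodule.span k (Set.range x) ≤ K ⊔ Submodule.span k (Set.range x) * K)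
    (a b : ℕ) : WlK k K x a * WlK k K x b ≤ WlK k K x (a + b) := by
  calc WlK k K x a * WlK k K x b
      = Submodule.span k (wdK x '' {v | v.length ≤ a}) * ((K *
        Submodule.span k (wdK x '' {v | v.length ≤ b})) * K) := by
        rw [WlK, WlK]
        simp only [mul_assoc]
    _ ≤ Submodule.span k (wdK x '' {v | v.length ≤ a}) * (WlK k K x b * K) :=
        wk_mr k (wk_ml k (wk_K_span k hstb b))
    _ = (Submodule.span k (wdK x '' {v | v.length ≤ a}) *
        Submodule.span k (wdK x '' {v | v.length ≤ b})) * (K * K) := by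
        rw [WlK]
        simp only [mul_assoc]
    _ ≤ Submodule.span k (wdK x '' {v | v.length ≤ a + b}) * K := by
        refine mul_le_mul' ?_ hKK
        rw [Submodule.span_mul_span, Submodule.span_le]
        rintro _ ⟨_, ⟨v, hv, rfl⟩, _, ⟨w, hw, rfl⟩, rfl⟩
        refine Submodule.subset_span ⟨v ++ w, ?_, wk_append x v w⟩
        have h1 : v.length ≤ a := hv
        have h2 : w.length ≤ b := hw
        show (v ++ w).length ≤ a + b
        rw [List.length_append]
        omega

/-- two-sided products: `u (smaller than v) K w ⊆` smaller than `u v w` -/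
theorem wk_ctx {K : Submodule k H} {m : ℕ} {x : Fin m → H}
    (hstb : K * Submodule.span k (Set.range x) ≤ K ⊔ Submodule.span k (Set.range x) * K)
    (u v w : List (Fin m)) :
    Submodule.span k {wdK x u} * (NwK k K x v * Submodule.span k {wdK x w}) ≤
      NwK k K x (u ++ v ++ w) := by
  calc Submodule.span k {wdK x u} * (NwK k K x v * Submodule.span k {wdK x w})
      = Submodule.span k {wdK x u} * (Submodule.span k (wdK x '' {v' |
        List.Shortlex (· < ·) v' v}) * (K * Submodule.span k {wdK x w})) := by
        rw [NwK, mul_assoc (Submodule.span k (wdK x '' _))]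
    _ ≤ Submodule.span k {wdK x u} * (Submodule.span k (wdK x '' {v' |
        List.Shortlex (· < ·) v' v}) * WlK k K x w.length) :=
        wk_mr k (wk_mr k (wk_K_wd k hstb w))
    _ = (Submodule.span k {wdK x u} * Submodule.span k (wdK x '' {v' |
        List.Shortlex (· < ·) v' v}) *
          Submodule.span k (wdK x '' {w' | w'.length ≤ w.length})) * K := by
        rw [WlK]
        simp only [mul_assoc]
    _ ≤ _ := by
        refine wk_ml k ?_
        rw [Submodule.span_mul_span, Submodule.span_mul_span, Submodule.span_le]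
        rintro _ ⟨_, ⟨_, rfl, _, ⟨v', hv', rfl⟩, rfl⟩, _, ⟨w', hw', rfl⟩, rfl⟩
        refine Submodule.subset_span ⟨u ++ v' ++ w', ?_, ?_⟩
        · have hw2 : w'.length ≤ w.length := hw'
          rcases List.shortlex_def.1 hv' with h3 | ⟨h3, h4⟩
          · apply List.Shortlex.of_length_lt
            simp only [List.length_append]
            omega
          · rcases hw2.lt_or_eq with h5 | h5
            · apply List.Shortlex.of_length_lt
              simp only [List.length_append]
              omega
            · show List.Shortlex (· < ·) (u ++ v' ++ w') (u ++ v ++ w)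
              rw [List.append_assoc, List.append_assoc]
              apply List.Shortlex.append_left
              apply List.Shortlex.of_lex
              · simp only [List.length_append]
                omega
              · exact wk_lex h3 h4 w' w
        · simp only [wk_append]

/-- factors of irreducible words are irreducible -/
theorem wk_fac {K : Submodule k H} {m : ℕ} {x : Fin m → H}
    (hstb : K * Submodule.span k (Set.range x) ≤ K ⊔ Submodule.span k (Set.range x) * K)
    (u v w : List (Fin m)) (h : u ++ v ++ w ∈ IrrK k K x) : v ∈ IrrK k K x := by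
  intro hv
  apply h
  have h1 : wdK x (u ++ v ++ w) ∈ Submodule.span k {wdK x u} * (NwK k K x v *
      Submodule.span k {wdK x w}) := by
    rw [wk_append, wk_append, mul_assoc]
    exact Submodule.mul_mem_mul (Submodule.subset_span rfl)
      (Submodule.mul_mem_mul hv (Submodule.subset_span rfl))
  exact wk_ctx k hstb u v w h1

/-- `C^n` is covered by the irreducible words of length at most `n` -/
theorem wk_cov {K C : Submodule k H} (h1 : (1 : H) ∈ K) (hKK : K * K ≤ K) {m : ℕ}
    {x : Fin m → H}
    (hstb : K * Submodule.span k (Set.range x) ≤ K ⊔ Submodule.span k (Set.range x) * K)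
    (hcov : C ≤ K ⊔ Submodule.span k (Set.range x) * K) (n : ℕ) :
    C ^ n ≤ Submodule.span k (wdK x '' {w | w ∈ IrrK k K x ∧ w.length ≤ n}) * K := by
  have hC : C ≤ WlK k K x 1 := by
    refine hcov.trans (sup_le (wk_K_le_W k K x 1) (wk_ml k ?_))
    rw [Submodule.span_le]
    rintro _ ⟨i, rfl⟩
    exact Submodule.subset_span ⟨[i], by simp, by simp [wdK]⟩
  have h2 : ∀ n : ℕ, C ^ n ≤ WlK k K x n := by
    intro n
    induction n with
    | zero =>
      rw [pow_zero]
      exact (Submodule.one_le.2 h1).trans (wk_K_le_W k K x 0)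
    | succ n ih =>
      rw [pow_succ]
      exact (mul_le_mul' ih hC).trans (wk_W_mul k hKK hstb n 1)
  refine (h2 n).trans ?_
  have h3 : Submodule.span k (wdK x '' {v | v.length ≤ n}) ≤
      Submodule.span k (wdK x '' {w | w ∈ IrrK k K x ∧ w.length ≤ n}) * K := by
    rw [Submodule.span_le]
    rintro _ ⟨v, hv, rfl⟩
    refine wk_ml k ?_ (wk_mem k h1 hKK x v)
    refine Submodule.span_mono (Set.image_mono ?_)
    rintro u ⟨hu1, hu2⟩
    refine ⟨hu1, ?_⟩
    have hv' : v.length ≤ n := hv
    rcases hu2 with hu2 | rfl
    · rcases List.shortlex_def.1 hu2 with h | ⟨h, _⟩ <;> omega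
    · exact hv'
  calc WlK k K x n ≤ (Submodule.span k (wdK x '' {w | w ∈ IrrK k K x ∧ w.length ≤ n}) * K) * K :=
        wk_ml k h3
    _ = Submodule.span k (wdK x '' {w | w ∈ IrrK k K x ∧ w.length ≤ n}) * (K * K) :=
        mul_assoc _ _ _
    _ ≤ _ := wk_mr k hKK

end alg

end Pool.Agent.WK
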